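import Pool.Agent.H144Z.QStar.Main

set_option autoImplicit false

namespace Pool.Agent.Results.MP_7840f5_gt.AQStarEquivalent

open Pool.Agent.H144Z.QStar

/-- If the image of `S` in the group presented by the relators `R` has finite order coprime to
`3` (in particular if it is coprime to `6`), then the presentation with the binary icosahedral
tail is carried to the presentation with the extra relator `S` by elementary moves. -/
theorem result (g h : ℕ) (R : Fin h → FreeGroup (Fin g)) (S : FreeGroup (Fin g))
    (_hfin : IsOfFinOrder (PresentedGroup.mk (Set.range R) S))
    (hcop : (orderOf (PresentedGroup.mk (Set.range R) S)).Coprime 3) :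
    QEquiv (presP R S) (presQ R S) :=
  main R S hcop

end Pool.Agent.Results.MP_7840f5_gt.AQStarEquivalent
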